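import Mathlib
import Pool.Agent.H575R3.GRWFinal

/-!
The zero-one law for the event `B` that the greedy random walk returns to its start at least once
fails in every even degree `d ≥ 4`: on the product of the integer line with the complete graph on
`d - 1` vertices we have `0 < P(B) < 1`.
-/

open MeasureTheory Finset Pool.Agent.H575R3.GRW
open scoped ENNReal

namespace Pool.Agent.Results.MP_3fb035_pr.ReturnOnceNoZeroOneLaw

/-- The product of the integer line and the complete graph on `m` vertices. -/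
def strip (m : ℕ) : SimpleGraph (ℤ × Fin m) where
  Adj u v := (u.1 = v.1 ∧ u.2 ≠ v.2) ∨ (u.2 = v.2 ∧ (v.1 = u.1 + 1 ∨ u.1 = v.1 + 1))
  symm := by
    constructor
    rintro u v (⟨h1, h2⟩ | ⟨h1, h2⟩)
    · exact Or.inl ⟨h1.symm, h2.symm⟩
    · exact Or.inr ⟨h1.symm, h2.symm⟩
  loopless := by
    constructor
    rintro u (⟨_, h⟩ | ⟨_, h | h⟩)
    · exact h rfl
    · omega
    · omega

/-- the neighbours of a vertex of the strip -/
def nb {m : ℕ} (v : ℤ × Fin m) : Finset (ℤ × Fin m) :=
  (univ.erase v.2).image (fun b => (v.1, b)) ∪ {(v.1 + 1, v.2), (v.1 - 1, v.2)}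

lemma mem_nb {m : ℕ} (v w : ℤ × Fin m) : w ∈ nb v ↔ w ∈ (strip m).neighborSet v := by
  obtain ⟨i, a⟩ := v
  obtain ⟨j, b⟩ := w
  simp only [nb, mem_union, mem_image, mem_erase, mem_univ, and_true, Prod.mk.injEq, mem_insert,
    mem_singleton, SimpleGraph.mem_neighborSet, strip]
  constructor
  · rintro (⟨c, h1, h2, h3⟩ | ⟨h1, h2⟩ | ⟨h1, h2⟩)
    · exact Or.inl ⟨h2, by rw [← h3]; exact fun h => h1 h.symm⟩
    · exact Or.inr ⟨h2.symm, Or.inl h1⟩
    · exact Or.inr ⟨h2.symm, Or.inr (by omega)⟩
  · rintro (⟨h1, h2⟩ | ⟨h1, h2 | h2⟩)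
    · exact Or.inl ⟨b, fun h => h2 h.symm, h1, rfl⟩
    · exact Or.inr (Or.inl ⟨h2, h1.symm⟩)
    · exact Or.inr (Or.inr ⟨by omega, h1.symm⟩)

instance instLF (m : ℕ) : (strip m).LocallyFinite := fun v =>
  Fintype.ofFinset (nb v) (mem_nb v)

lemma neighborFinset_eq {m : ℕ} (v : ℤ × Fin m) : (strip m).neighborFinset v = nb v := by
  ext w
  rw [SimpleGraph.mem_neighborFinset, mem_nb, SimpleGraph.mem_neighborSet]

lemma degree_eq {m : ℕ} (v : ℤ × Fin m) : (strip m).degree v = m + 1 := by
  rw [← SimpleGraph.card_neighborFinset_eq_degree, neighborFinset_eq]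
  unfold nb
  rw [Finset.card_union_of_disjoint]
  · rw [Finset.card_image_of_injective _ (fun a b h => (Prod.mk.inj h).2),
      Finset.card_erase_of_mem (mem_univ _), Finset.card_univ, Fintype.card_fin,
      Finset.card_pair]
    · have : 0 < m := Fin.pos v.2
      omega
    · intro h
      have := (Prod.mk.inj h).1
      omega
  · rw [Finset.disjoint_left]
    intro w h1 h2
    simp only [mem_image, mem_erase, mem_univ, and_true] at h1
    obtain ⟨b, hb, rfl⟩ := h1
    simp only [mem_insert, mem_singleton, Prod.mk.injEq] at h2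
    rcases h2 with ⟨h, _⟩ | ⟨h, _⟩ <;> omega

lemma trans_strip {m : ℕ} (u v : ℤ × Fin m) : ∃ φ : strip m ≃g strip m, φ u = v := by
  refine ⟨⟨(Equiv.addRight (v.1 - u.1)).prodCongr (Equiv.swap u.2 v.2), ?_⟩, ?_⟩
  · intro x y
    simp only [strip, Equiv.prodCongr_apply, Prod.map_fst, Prod.map_snd, Equiv.coe_addRight,
      ne_eq, EmbeddingLike.apply_eq_iff_eq, add_left_inj]
    constructor
    · rintro (h | ⟨h1, h2 | h2⟩)
      · exact Or.inl h
      · exact Or.inr ⟨h1, Or.inl (by omega)⟩
      · exact Or.inr ⟨h1, Or.inr (by omega)⟩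
    · rintro (h | ⟨h1, h2 | h2⟩)
      · exact Or.inl h
      · exact Or.inr ⟨h1, Or.inl (by omega)⟩
      · exact Or.inr ⟨h1, Or.inr (by omega)⟩
  · apply Prod.ext
    · change u.1 + (v.1 - u.1) = v.1
      ring
    · change Equiv.swap u.2 v.2 u.2 = v.2
      exact Equiv.swap_apply_left _ _

lemma reach_zero {m : ℕ} (a : Fin m) (i : ℤ) : (strip m).Reachable (0, a) (i, a) := by
  induction i using Int.induction_on with
  | zero => exact SimpleGraph.Reachable.refl _
  | succ i ih =>
    refine ih.trans (SimpleGraph.Adj.reachable ?_)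
    exact Or.inr ⟨rfl, Or.inl rfl⟩
  | pred i ih =>
    refine ih.trans (SimpleGraph.Adj.reachable ?_)
    exact Or.inr ⟨rfl, Or.inr (by simp)⟩

lemma connected_strip {m : ℕ} (hm : 0 < m) : (strip m).Connected := by
  have : Nonempty (ℤ × Fin m) := ⟨(0, ⟨0, hm⟩)⟩
  refine ⟨?_⟩
  intro u v
  obtain ⟨i, a⟩ := u
  obtain ⟨j, b⟩ := v
  refine (reach_zero a i).symm.trans (SimpleGraph.Reachable.trans ?_ (reach_zero b j))
  by_cases h : a = b
  · rw [h]
  · exact SimpleGraph.Adj.reachable (Or.inl ⟨rfl, h⟩)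

lemma stepProb_ne_zero {V : Type} [DecidableEq V] (G : SimpleGraph V) [G.LocallyFinite]
    {x : ℕ → V} {t : ℕ} {y : V} (hadj : G.Adj (x t) y) (hnew : s(x t, y) ∉ crossed x t) :
    stepProb G x t y ≠ 0 := by
  have hmem : y ∈ fresh G x t := by
    unfold fresh
    rw [Finset.mem_filter, SimpleGraph.mem_neighborFinset]
    exact ⟨hadj, hnew⟩
  unfold stepProb
  rw [if_pos ⟨y, hmem⟩, if_pos hmem]
  exact ENNReal.inv_ne_zero.mpr (ENNReal.natCast_ne_top _)

/-- the columns in cyclic order, beginning with `a` -/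
def col {m : ℕ} (a : Fin m) (j : ℕ) : Fin m := ⟨(a.val + j) % m, Nat.mod_lt _ (Fin.pos a)⟩

lemma col_zero {m : ℕ} (a : Fin m) : col a 0 = a := by
  apply Fin.ext
  simp [col, Nat.mod_eq_of_lt a.isLt]

lemma col_inj {m : ℕ} (a : Fin m) {j k : ℕ} (hj : j < m) (hk : k < m) (h : col a j = col a k) :
    j = k := by
  have h1 : (a.val + j) % m = (a.val + k) % m := congrArg Fin.val h
  have h2 : j ≡ k [MOD m] := Nat.ModEq.add_left_cancel' a.val h1
  exact Nat.ModEq.eq_of_lt_of_lt h2 hj hk

lemma col_surj {m : ℕ} (a b : Fin m) : ∃ j < m, col a j = b := by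
  refine ⟨(b.val + (m - a.val)) % m, Nat.mod_lt _ (Fin.pos a), ?_⟩
  apply Fin.ext
  simp only [col, Nat.add_mod_mod]
  have : a.val + (b.val + (m - a.val)) = b.val + m := by omega
  rw [this, Nat.add_mod_right, Nat.mod_eq_of_lt b.isLt]

/-- the zigzag -/
def zig {m : ℕ} (o : ℤ × Fin m) (t : ℕ) : ℤ × Fin m :=
  (o.1 + (((t + 1) / 2 % 2 : ℕ) : ℤ), col o.2 (t / 2))

lemma zig_zero {m : ℕ} (o : ℤ × Fin m) : zig o 0 = o := by
  simp [zig, col_zero]

lemma zig_inj {m : ℕ} (o : ℤ × Fin m) {s t : ℕ} (hs : s ≤ 2 * m - 1) (ht : t ≤ 2 * m - 1)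
    (h : zig o s = zig o t) : s = t := by
  have hm : 0 < m := Fin.pos o.2
  have h1 := (Prod.mk.inj h).1
  have h2 := col_inj o.2 (by omega) (by omega) (Prod.mk.inj h).2
  omega

lemma zig_adj {m : ℕ} (o : ℤ × Fin m) {t : ℕ} (ht : t + 1 ≤ 2 * m - 1) :
    (strip m).Adj (zig o t) (zig o (t + 1)) := by
  have hm : 0 < m := Fin.pos o.2
  rcases Nat.even_or_odd' t with ⟨j, rfl | rfl⟩
  · refine Or.inr ⟨?_, ?_⟩
    · simp only [zig]
      congr 1
      omega
    · simp only [zig]
      omega
  · refine Or.inl ⟨?_, ?_⟩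
    · simp only [zig]
      congr 2
      omega
    · simp only [zig]
      intro h
      have := col_inj o.2 (by omega) (by omega) h
      omega

lemma zig_step {m : ℕ} (o : ℤ × Fin m) {t : ℕ} (ht : t < 2 * m - 1) :
    stepProb (strip m) (zig o) t (zig o (t + 1)) ≠ 0 := by
  apply stepProb_ne_zero _ (zig_adj o (by omega))
  unfold crossed
  simp only [mem_image, mem_range, not_exists, not_and]
  intro s hs h
  rw [Sym2.eq_iff] at h
  rcases h with ⟨h, _⟩ | ⟨h, _⟩
  · have := zig_inj o (by omega) (by omega) h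
    omega
  · have := zig_inj o (by omega) (by omega) h
    omega

/-- After the zigzag the walk never returns. -/
lemma never_return {m : ℕ} (hodd : Odd m) (o : ℤ × Fin m) {x : ℕ → ℤ × Fin m}
    (hx : Valid (strip m) x) (hz : ∀ s ≤ 2 * m - 1, x s = zig o s) (t : ℕ) :
    base (strip m) x t = o ∧ (1 ≤ t → x t ≠ o) ∧ (2 * m - 1 ≤ t → o.1 + 1 ≤ (x t).1) := by
  have hm : 0 < m := Fin.pos o.2
  have heven : ∀ v, Even ((strip m).neighborFinset v).card := by
    intro v
    rw [SimpleGraph.card_neighborFinset_eq_degree, degree_eq]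
    exact hodd.add_one
  have h0 : x 0 = o := by rw [hz 0 (by omega), zig_zero]
  induction t with
  | zero =>
    refine ⟨h0, fun h => absurd h (by omega), fun h => absurd h (by omega)⟩
  | succ t ih =>
    obtain ⟨ih1, ih2, ih3⟩ := ih
    have hf : (fresh (strip m) x t).Nonempty := by
      by_contra hf
      have hb := eq_base_of_stuck heven hx hf
      rw [ih1] at hb
      by_cases ht : 1 ≤ t
      · exact ih2 ht hb
      · have ht0 : t = 0 := by omega
        subst ht0
        apply hf
        refine ⟨(o.1 + 1, o.2), ?_⟩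
        unfold fresh
        rw [Finset.mem_filter, SimpleGraph.mem_neighborFinset, h0, crossed_zero]
        exact ⟨Or.inr ⟨rfl, Or.inl rfl⟩, by simp⟩
    have hmem := hx.fresh_mem hf
    unfold fresh at hmem
    rw [Finset.mem_filter, SimpleGraph.mem_neighborFinset] at hmem
    obtain ⟨hadj, hnew⟩ := hmem
    have hlev : 2 * m - 1 ≤ t + 1 → o.1 + 1 ≤ (x (t + 1)).1 := by
      intro h
      rcases Nat.lt_or_ge t (2 * m - 1) with hlt | hge
      · have : t + 1 = 2 * m - 1 := by omega
        rw [hz (t + 1) (by omega), this]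
        simp only [zig]
        obtain ⟨k, hk⟩ := hodd
        omega
      · have h3 := ih3 hge
        rcases hadj with ⟨h4, _⟩ | ⟨h4, h5 | h5⟩
        · rw [← h4]; exact h3
        · omega
        · by_contra hc
          have hl : (x (t + 1)).1 = o.1 := by omega
          have hl' : (x t).1 = o.1 + 1 := by omega
          obtain ⟨j, hj, hcol⟩ := col_surj o.2 (x t).2
          apply hnew
          unfold crossed
          rw [Finset.mem_image]
          refine ⟨2 * j, by rw [mem_range]; omega, ?_⟩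
          rw [hz (2 * j) (by omega), hz (2 * j + 1) (by omega)]
          have e1 : x t = (o.1 + 1, col o.2 j) := Prod.ext hl' hcol.symm
          have e2 : x (t + 1) = (o.1, col o.2 j) := Prod.ext hl (by rw [← h4]; exact hcol.symm)
          rw [e1, e2, Sym2.eq_iff]
          rcases Nat.even_or_odd' j with ⟨k, rfl | rfl⟩
          · right
            constructor
            · apply Prod.ext
              · simp only [zig]; omega
              · simp only [zig]; congr 1; omega
            · apply Prod.ext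
              · simp only [zig]; omega
              · simp only [zig]; congr 1; omega
          · left
            constructor
            · apply Prod.ext
              · simp only [zig]; omega
              · simp only [zig]; congr 1; omega
            · apply Prod.ext
              · simp only [zig]; omega
              · simp only [zig]; congr 1; omega
    refine ⟨by rw [base_succ_fresh hf, ih1], fun _ => ?_, hlev⟩
    rcases Nat.lt_or_ge t (2 * m - 1) with hlt | hge
    · rw [hz (t + 1) (by omega)]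
      intro h
      have h' : zig o (t + 1) = zig o 0 := by rw [h, zig_zero]
      have := zig_inj o (by omega) (by omega) h'
      omega
    · intro h
      have := hlev (by omega)
      rw [h] at this
      omega

/-- the triangle -/
def tri {m : ℕ} (o : ℤ × Fin m) (t : ℕ) : ℤ × Fin m :=
  if t < 3 then (o.1, col o.2 t) else o

lemma tri_step {m : ℕ} (hm : 3 ≤ m) (o : ℤ × Fin m) {t : ℕ} (ht : t < 3) :
    stepProb (strip m) (tri o) t (tri o (t + 1)) ≠ 0 := by
  have h0 : tri o 0 = (o.1, col o.2 0) := rfl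
  have h1 : tri o 1 = (o.1, col o.2 1) := rfl
  have h2 : tri o 2 = (o.1, col o.2 2) := rfl
  have h3 : tri o 3 = (o.1, col o.2 0) := by rw [col_zero]; rfl
  have n01 : col o.2 0 ≠ col o.2 1 := fun h => by
    have := col_inj o.2 (by omega) (by omega) h; omega
  have n02 : col o.2 0 ≠ col o.2 2 := fun h => by
    have := col_inj o.2 (by omega) (by omega) h; omega
  have n12 : col o.2 1 ≠ col o.2 2 := fun h => by
    have := col_inj o.2 (by omega) (by omega) h; omega
  have c1 : crossed (tri o) 1 = {s(tri o 0, tri o 1)} := by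
    simp [crossed_succ, crossed_zero]
  have c2 : crossed (tri o) 2 = {s(tri o 1, tri o 2), s(tri o 0, tri o 1)} := by
    simp [crossed_succ, crossed_zero]
  apply stepProb_ne_zero
  · interval_cases t
    · rw [h0, h1]; exact Or.inl ⟨rfl, n01⟩
    · rw [h1, h2]; exact Or.inl ⟨rfl, n12⟩
    · rw [h2, h3]; exact Or.inl ⟨rfl, n02.symm⟩
  · interval_cases t
    · rw [crossed_zero]; simp
    · rw [c1, h0, h1, h2]
      simp only [mem_singleton, Sym2.eq_iff, Prod.mk.injEq, true_and]
      simp only [n01.symm, n02.symm, false_and, and_false, or_self, not_false_iff]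
    · rw [c2, h0, h1, h2, h3]
      simp only [mem_insert, mem_singleton, Sym2.eq_iff, Prod.mk.injEq, true_and]
      simp only [n12.symm, n01, n02.symm, false_and, and_false, or_self, not_false_iff]

theorem result (d : ℕ) (hd : Even d) (h4 : 4 ≤ d) :
    ∃ (V : Type) (_ : DecidableEq V) (_ : Infinite V) (G : SimpleGraph V) (_ : G.LocallyFinite),
      G.Connected ∧ (∀ u v : V, ∃ φ : G ≃g G, φ u = v) ∧ (∀ v, G.degree v = d) ∧
      ∀ o : V,
        (∃ (_ : MeasurableSpace (ℕ → V)) (P : Measure (ℕ → V)), IsGRW G o P (fun t ω => ω t)) ∧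
        ∀ (Ω : Type) (_ : MeasurableSpace Ω) (P : Measure Ω) (X : ℕ → Ω → V), IsGRW G o P X →
          0 < P {ω | ∃ t, 1 ≤ t ∧ X t ω = o} ∧ P {ω | ∃ t, 1 ≤ t ∧ X t ω = o} < 1 ∧
          P {ω | ∀ n, ∃ t, n ≤ t ∧ X t ω = o} = 0 := by
  obtain ⟨m, rfl⟩ : ∃ m, d = m + 1 := ⟨d - 1, by omega⟩
  have hm : 3 ≤ m := by omega
  have hodd : Odd m := by
    rcases hd with ⟨k, hk⟩
    exact ⟨k - 1, by omega⟩
  have hne : Nonempty (Fin m) := ⟨⟨0, by omega⟩⟩
  have hinf : Infinite (ℤ × Fin m) := inferInstance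
  have hconn := connected_strip (m := m) (by omega)
  have hc := countable_of_connected (strip m) hconn
  have heven : ∀ v, Even ((strip m).neighborFinset v).card := by
    intro v
    rw [SimpleGraph.card_neighborFinset_eq_degree, degree_eq]
    exact hd
  refine ⟨ℤ × Fin m, inferInstance, hinf, strip m, inferInstance, hconn, trans_strip,
    degree_eq, ?_⟩
  intro o
  refine ⟨exists_isGRW (strip m) (neighborFinset_nonempty hconn) o, ?_⟩
  intro Ω mΩ P X h
  have hP : IsProbabilityMeasure P := ⟨h.prob⟩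
  have hlt : P {ω | ∃ t, 1 ≤ t ∧ X t ω = o} < 1 := by
    have hcyl := h.cyl_pos (zig o) (zig_zero o) (2 * m - 1) (fun s hs => zig_step o hs)
    have hmeas := h.measurableSet_cyl (zig o) (2 * m - 1)
    have hsub : P {ω | ∃ t, 1 ≤ t ∧ X t ω = o} ≤
        P {ω | ∀ s ≤ 2 * m - 1, X s ω = zig o s}ᶜ := by
      apply measure_mono_ae
      filter_upwards [h.ae_valid] with ω hω hB hz
      obtain ⟨t, ht, hto⟩ := hB
      exact (never_return hodd o hω hz t).2.1 ht hto
    refine lt_of_le_of_lt hsub ?_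
    rw [prob_compl_eq_one_sub hmeas]
    exact ENNReal.sub_lt_self ENNReal.one_ne_top one_ne_zero hcyl
  refine ⟨?_, hlt, ?_⟩
  · have hcyl := h.cyl_pos (tri o) (by change (o.1, col o.2 0) = o; rw [col_zero]) 3
      (fun s hs => tri_step hm o hs)
    refine lt_of_lt_of_le (pos_iff_ne_zero.mpr hcyl) (measure_mono ?_)
    intro ω hω
    exact ⟨3, by omega, hω 3 le_rfl⟩
  · exact (h.even_law hconn trans_strip heven).2 (fun hh => hlt.ne hh.2)

end Pool.Agent.Results.MP_3fb035_pr.ReturnOnceNoZeroOneLaw
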